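import Mathlib

/-!
# Bipartite graphs: finitely many forbidden linear orderings, but not circular orderings

The class of bipartite graphs is described by two forbidden linearly ordered graphs. It is not
described by any finite set of forbidden circularly ordered graphs.
-/

set_option autoImplicit false

namespace Pool.Agent.Results.MP_b6cdd3_co.BipartiteSeparates

open Finset

/-! ### Definitions -/

/-- A (linearly or circularly) ordered graph up to isomorphism: a graph on `Fin m`, where `Fin m`
carries its standard linear (or circular) order. -/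
abbrev Pattern : Type := (m : ℕ) × SimpleGraph (Fin m)

/-- `x, y, z` occur in this cyclic order. -/
def Cyc (x y z : ℕ) : Prop := (x < y ∧ y < z) ∨ (y < z ∧ z < x) ∨ (z < x ∧ x < y)

/-- The linear ordering of `V` given by the injective map `pos` contains the pattern `X`: there is
an order-preserving isomorphism of `X` onto an induced subgraph of `G`. -/
def LinContains {V : Type} (G : SimpleGraph V) (pos : V → ℕ) (X : Pattern) : Prop :=
  ∃ φ : Fin X.1 → V, (∀ i j, i < j → pos (φ i) < pos (φ j)) ∧
    ∀ i j, X.2.Adj i j ↔ G.Adj (φ i) (φ j)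

/-- The circular ordering of `V` given by the injective map `pos` (the clockwise positions) contains
the pattern `X`: there is a bijection of `X` onto an induced subgraph of `G` which preserves
adjacency and the cyclic order. -/
def CircContains {V : Type} (G : SimpleGraph V) (pos : V → ℕ) (X : Pattern) : Prop :=
  ∃ φ : Fin X.1 → V, Function.Injective φ ∧
    (∀ i j k, i < j → j < k → Cyc (pos (φ i)) (pos (φ j)) (pos (φ k))) ∧
    ∀ i j, X.2.Adj i j ↔ G.Adj (φ i) (φ j)

/-- `G` admits an `F`-free linear ordering. -/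
def LinFree (F : Set Pattern) {V : Type} (G : SimpleGraph V) : Prop :=
  ∃ pos : V → ℕ, Function.Injective pos ∧ ∀ X ∈ F, ¬ LinContains G pos X

/-- `G` admits an `F`-free circular ordering. -/
def CircFree (F : Set Pattern) {V : Type} (G : SimpleGraph V) : Prop :=
  ∃ pos : V → ℕ, Function.Injective pos ∧ ∀ X ∈ F, ¬ CircContains G pos X

/-- A graph property, as a predicate on graphs. -/
abbrev GraphProperty : Type 1 := (V : Type) → SimpleGraph V → Prop

/-- The property is closed under isomorphisms and under induced subgraphs. -/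
def Hereditary (P : GraphProperty) : Prop :=
  ∀ (V W : Type) (G : SimpleGraph V) (H : SimpleGraph W), Nonempty (H ↪g G) → P V G → P W H

/-- The property `P` of finite graphs is described by finitely many forbidden linearly ordered
graphs. -/
def LinearlyDescribed (P : GraphProperty) : Prop :=
  ∃ F : Set Pattern, F.Finite ∧ ∀ (V : Type) [Finite V] (G : SimpleGraph V), P V G ↔ LinFree F G

/-- The property `P` of finite graphs is described by finitely many forbidden circularly ordered
graphs. -/
def CircularlyDescribed (P : GraphProperty) : Prop :=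
  ∃ F : Set Pattern, F.Finite ∧ ∀ (V : Type) [Finite V] (G : SimpleGraph V), P V G ↔ CircFree F G

/-- The class of bipartite graphs. -/
def Bipartite : GraphProperty := fun _ G => G.Colorable 2

lemma bipartite_hereditary : Hereditary Bipartite := by
  rintro V W G H ⟨f⟩ ⟨C⟩
  exact ⟨C.comp f.toHom⟩

/-! ### The linear description -/

/-- The path with three vertices, in its natural order. -/
def P3 : SimpleGraph (Fin 3) where
  Adj i j := (i : ℕ) + 1 = j ∨ (j : ℕ) + 1 = i
  symm := ⟨fun _ _ h => h.symm⟩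
  loopless := ⟨fun _ h => by omega⟩

/-- The triangle. -/
def K3 : SimpleGraph (Fin 3) := ⊤

lemma bipartite_linear : LinearlyDescribed Bipartite := by
  classical
  refine ⟨{⟨3, P3⟩, ⟨3, K3⟩}, Set.toFinite _, fun V _ G => ⟨?_, ?_⟩⟩
  · rintro ⟨C⟩
    -- the colour class `0` first
    obtain ⟨n, ⟨e⟩⟩ := Finite.exists_equiv_fin V
    refine ⟨fun v => n * (C v : ℕ) + (e v : ℕ), ?_, ?_⟩
    · intro v w h
      have hv := (e v).2
      have hw := (e w).2
      have hcv := (C v).2
      have hcw := (C w).2
      simp only at h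
      have h1 : (C v : ℕ) = C w := by
        rcases lt_trichotomy (C v : ℕ) (C w) with h2 | h2 | h2
        · nlinarith
        · exact h2
        · nlinarith
      rw [h1] at h
      have h2 : (e v : ℕ) = e w := by omega
      exact e.injective (Fin.ext h2)
    · -- a monotone path with three vertices would need three colours
      have key : ∀ x y z : V, G.Adj x y → G.Adj y z →
          n * (C x : ℕ) + (e x : ℕ) < n * (C y : ℕ) + (e y : ℕ) →
          n * (C y : ℕ) + (e y : ℕ) < n * (C z : ℕ) + (e z : ℕ) → False := by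
        intro x y z h1 h2 h3 h4
        have hc1 : C x ≠ C y := C.valid h1
        have hc2 : C y ≠ C z := C.valid h2
        have hx := (e x).2
        have hy := (e y).2
        have hz := (e z).2
        generalize C x = cx at *
        generalize C y = cy at *
        generalize C z = cz at *
        fin_cases cx <;> fin_cases cy <;> fin_cases cz <;> simp_all <;> omega
      rintro X (rfl | rfl) ⟨φ, h1, h2⟩
      · exact key (φ 0) (φ 1) (φ 2) ((h2 0 1).mp (Or.inl rfl)) ((h2 1 2).mp (Or.inl rfl))
          (h1 0 1 (by decide)) (h1 1 2 (by decide))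
      · refine key (φ 0) (φ 1) (φ 2) ((h2 0 1).mp ?_) ((h2 1 2).mp ?_)
          (h1 0 1 (by decide)) (h1 1 2 (by decide))
        · show (⊤ : SimpleGraph (Fin 3)).Adj 0 1
          rw [SimpleGraph.top_adj]
          decide
        · show (⊤ : SimpleGraph (Fin 3)).Adj 1 2
          rw [SimpleGraph.top_adj]
          decide
  · rintro ⟨pos, hpos, hfree⟩
    have key : ∀ x y z : V, G.Adj x y → G.Adj y z → pos x < pos y → pos y < pos z → False := by
      intro x y z hxy hyz h1 h2
      by_cases hxz : G.Adj x z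
      · refine hfree ⟨3, K3⟩ (Or.inr rfl) ⟨![x, y, z], ?_, ?_⟩
        · intro i j hij
          fin_cases i <;> fin_cases j <;> simp at hij ⊢ <;> omega
        · intro i j
          show (⊤ : SimpleGraph (Fin 3)).Adj i j ↔ _
          rw [SimpleGraph.top_adj]
          fin_cases i <;> fin_cases j <;>
            simp [hxy, hyz, hxz, hxy.symm, hyz.symm, hxz.symm]
      · refine hfree ⟨3, P3⟩ (Or.inl rfl) ⟨![x, y, z], ?_, ?_⟩
        · intro i j hij
          fin_cases i <;> fin_cases j <;> simp at hij ⊢ <;> omega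
        · have hzx : ¬ G.Adj z x := fun h => hxz h.symm
          intro i j
          fin_cases i <;> fin_cases j <;>
            simp [P3, hxy, hyz, hxz, hxy.symm, hyz.symm, hzx]
    refine ⟨SimpleGraph.Coloring.mk
      (fun v => if ∃ u, G.Adj u v ∧ pos u < pos v then (1 : Fin 2) else 0) ?_⟩
    intro v w hvw
    have hne : pos v ≠ pos w := fun h => hvw.ne (hpos h)
    rcases lt_or_gt_of_ne hne with h | h
    · have h1 : ∃ u, G.Adj u w ∧ pos u < pos w := ⟨v, hvw, h⟩
      have h2 : ¬ ∃ u, G.Adj u v ∧ pos u < pos v := by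
        rintro ⟨u, hu, hu'⟩
        exact key u v w hu hvw hu' h
      simp [h1, h2]
    · have h1 : ∃ u, G.Adj u v ∧ pos u < pos v := ⟨w, hvw.symm, h⟩
      have h2 : ¬ ∃ u, G.Adj u w ∧ pos u < pos w := by
        rintro ⟨u, hu, hu'⟩
        exact key u w v hu hvw.symm hu' h
      simp [h1, h2]

/-! ### Unavoidable patterns in incidence graphs -/

lemma exists_L (k : ℕ) : ∃ L, (∑ i ∈ range k, L.choose i) * 2 ^ ((k + 1) * k) < 2 ^ L := by
  have h1 := tendsto_pow_const_div_const_pow_of_one_lt k (show (1 : ℝ) < 2 by norm_num)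
  have h2 : ∀ᶠ L : ℕ in Filter.atTop, (L : ℝ) ^ k / 2 ^ L < 1 / ((k + 1) * 2 ^ ((k + 1) * k)) :=
    h1.eventually_lt_const (by positivity)
  obtain ⟨L, h3, h4⟩ := (h2.and (Filter.eventually_ge_atTop 1)).exists
  refine ⟨L, ?_⟩
  have h5 : ∑ i ∈ range k, L.choose i ≤ k * L ^ k := by
    calc ∑ i ∈ range k, L.choose i ≤ ∑ _i ∈ range k, L ^ k := by
          apply sum_le_sum
          intro i hi
          rw [mem_range] at hi
          exact (Nat.choose_le_pow L i).trans (Nat.pow_le_pow_right h4 hi.le)
      _ = k * L ^ k := by rw [sum_const, card_range, smul_eq_mul]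
  have h6 : (k : ℝ) * L ^ k * 2 ^ ((k + 1) * k) < 2 ^ L := by
    rw [div_lt_div_iff₀ (by positivity) (by positivity)] at h3
    have h7 : (0 : ℝ) ≤ L ^ k * 2 ^ ((k + 1) * k) := by positivity
    nlinarith
  calc (∑ i ∈ range k, L.choose i) * 2 ^ ((k + 1) * k)
      ≤ k * L ^ k * 2 ^ ((k + 1) * k) := Nat.mul_le_mul_right _ h5
    _ < 2 ^ L := by exact_mod_cast h6

section Core

variable {N : ℕ}

/-- The rank of `S` among the members of `Q`. -/
def rk (Q : Finset (Finset (Fin N))) (f : Finset (Fin N) → ℕ) (S : Finset (Fin N)) : ℕ :=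
  (Q.filter (fun S' => f S' < f S)).card

lemma rk_mono (Q : Finset (Finset (Fin N))) (f : Finset (Fin N) → ℕ) {S S' : Finset (Fin N)}
    (h : f S ≤ f S') : rk Q f S ≤ rk Q f S' := by
  apply card_le_card
  intro T hT
  rw [mem_filter] at hT ⊢
  exact ⟨hT.1, lt_of_lt_of_le hT.2 h⟩

lemma rk_strict (Q : Finset (Finset (Fin N))) (f : Finset (Fin N) → ℕ) {S S' : Finset (Fin N)}
    (hS : S ∈ Q) (h : f S < f S') : rk Q f S < rk Q f S' := by
  apply card_lt_card
  rw [ssubset_iff_of_subset]
  · exact ⟨S, mem_filter.mpr ⟨hS, h⟩, fun h' => lt_irrefl _ (mem_filter.mp h').2⟩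
  · intro T hT
    rw [mem_filter] at hT ⊢
    exact ⟨hT.1, hT.2.trans h⟩

lemma rk_lt (Q : Finset (Finset (Fin N))) (f : Finset (Fin N) → ℕ) {S : Finset (Fin N)}
    (hS : S ∈ Q) : rk Q f S < Q.card := by
  apply card_lt_card
  rw [ssubset_iff_of_subset (filter_subset _ _)]
  exact ⟨S, hS, fun h => lt_irrefl _ (mem_filter.mp h).2⟩

lemma rk_surj (Q : Finset (Finset (Fin N))) (f : Finset (Fin N) → ℕ)
    (hf : Function.Injective f) (r : ℕ) (hr : r < Q.card) : ∃ S ∈ Q, rk Q f S = r := by
  have h1 : Q.image (rk Q f) = range Q.card := by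
    apply eq_of_subset_of_card_le
    · intro r hr
      obtain ⟨S, hS, rfl⟩ := mem_image.mp hr
      exact mem_range.mpr (rk_lt Q f hS)
    · rw [card_range, card_image_of_injOn]
      intro S hS S' hS' h
      by_contra hne
      have h2 : f S ≠ f S' := fun h' => hne (hf h')
      rcases lt_or_gt_of_ne h2 with h3 | h3
      · exact absurd h (rk_strict Q f hS h3).ne
      · exact absurd h (rk_strict Q f hS' h3).ne'
  have h2 : r ∈ Q.image (rk Q f) := by rw [h1]; exact mem_range.mpr hr
  obtain ⟨S, hS, h3⟩ := mem_image.mp h2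
  exact ⟨S, hS, h3⟩

/-- The `j`-th block of `c` consecutive members of `Q`. -/
def block (Q : Finset (Finset (Fin N))) (f : Finset (Fin N) → ℕ) (c j : ℕ) :
    Finset (Finset (Fin N)) :=
  Q.filter (fun S => j * c ≤ rk Q f S ∧ rk Q f S < (j + 1) * c)

lemma card_block (Q : Finset (Finset (Fin N))) (f : Finset (Fin N) → ℕ)
    (hf : Function.Injective f) (c j : ℕ) (h : (j + 1) * c ≤ Q.card) :
    c ≤ (block Q f c j).card := by
  have h1 : Ico (j * c) ((j + 1) * c) ⊆ (block Q f c j).image (rk Q f) := by
    intro r hr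
    rw [mem_Ico] at hr
    obtain ⟨S, hS, h2⟩ := rk_surj Q f hf r (lt_of_lt_of_le hr.2 h)
    exact mem_image.mpr ⟨S, mem_filter.mpr ⟨hS, by rw [h2]; exact hr⟩, h2⟩
  have h2 := (card_le_card h1).trans card_image_le
  rw [Nat.card_Ico] at h2
  have h3 : (j + 1) * c - j * c = c := by
    rw [add_mul, one_mul]
    omega
  omega

/-- The sets shattered by the first `r` blocks. -/
def common (Q : Finset (Finset (Fin N))) (f : Finset (Fin N) → ℕ) (c r : ℕ) :
    Finset (Finset (Fin N)) :=
  univ.filter (fun s => ∀ j < r, s ∈ (block Q f c j).shatterer)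

lemma card_common (Q : Finset (Finset (Fin N))) (f : Finset (Fin N) → ℕ)
    (hf : Function.Injective f) (k : ℕ) (hk : (k + 1) * k ≤ N) (hk1 : 1 ≤ k)
    (hQ : 2 ^ (N - 1) ≤ Q.card) (r : ℕ) (hr : r ≤ k) :
    2 ^ (N - (k + 1) * r) ≤ (common Q f (2 ^ (N - (k + 1))) r).card := by
  set c := 2 ^ (N - (k + 1)) with hc
  have hkN : k + 1 ≤ N := by nlinarith
  induction r with
  | zero =>
    have : common Q f c 0 = univ := by
      rw [common, filter_true_of_mem]
      intro s _ j hj
      omega
    rw [this, card_univ, Fintype.card_finset, Fintype.card_fin, mul_zero, Nat.sub_zero]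
  | succ r ih =>
    have ih := ih (by omega)
    have h1 : common Q f c (r + 1) = common Q f c r ∩ (block Q f c r).shatterer := by
      ext s
      simp only [common, mem_inter, mem_filter, mem_univ, true_and]
      constructor
      · intro h
        exact ⟨fun j hj => h j (by omega), h r (by omega)⟩
      · rintro ⟨h2, h3⟩ j hj
        by_cases hjr : j = r
        · rw [hjr]
          exact h3
        · exact h2 j (by omega)
    have hlow : IsLowerSet (common Q f c r : Set (Finset (Fin N))) := by
      intro s t hts hs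
      rw [mem_coe, common, mem_filter] at hs ⊢
      exact ⟨mem_univ _, fun j hj => isLowerSet_shatterer _ hts (hs.2 j hj)⟩
    have h2 := hlow.le_card_inter_finset (isLowerSet_shatterer (block Q f c r))
    rw [← h1, Fintype.card_fin] at h2
    have h3 : c ≤ (block Q f c r).shatterer.card := by
      refine (card_block Q f hf c r ?_).trans (card_le_card_shatterer _)
      refine le_trans ?_ hQ
      calc (r + 1) * c ≤ 2 ^ k * c := by
            apply Nat.mul_le_mul_right
            have := Nat.lt_two_pow_self (n := k)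
            omega
        _ = 2 ^ (k + (N - (k + 1))) := by rw [hc, ← pow_add]
        _ = 2 ^ (N - 1) := by congr 1; omega
    have h4 : 2 ^ (N - (k + 1) * r) * c ≤ 2 ^ N * (common Q f c (r + 1)).card :=
      (Nat.mul_le_mul ih h3).trans h2
    have h5 : (k + 1) * (r + 1) ≤ N := by
      have : (k + 1) * (r + 1) ≤ (k + 1) * k := Nat.mul_le_mul_left _ hr
      omega
    have h6 : 2 ^ (N - (k + 1) * r) * c = 2 ^ N * 2 ^ (N - (k + 1) * (r + 1)) := by
      rw [hc, ← pow_add, ← pow_add]
      congr 1
      rw [mul_add, mul_one] at h5 ⊢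
      omega
    rw [h6] at h4
    exact Nat.le_of_mul_le_mul_left h4 (by positivity)

/-- The number of sets which meet `P` in less than `k` elements. -/
lemma card_small (P : Finset (Fin N)) (k : ℕ) :
    (univ.filter (fun s : Finset (Fin N) => (s ∩ P).card < k)).card ≤
      (∑ i ∈ range k, P.card.choose i) * 2 ^ (N - P.card) := by
  let T := (range k).biUnion (fun i => powersetCard i P) ×ˢ Pᶜ.powerset
  have h1 : (univ.filter (fun s : Finset (Fin N) => (s ∩ P).card < k)).card ≤ T.card := by
    apply card_le_card_of_injOn (fun s => (s ∩ P, s \ P))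
    · intro s hs
      rw [mem_coe, mem_filter] at hs
      simp only [T, coe_product, Set.mem_prod, mem_coe, mem_biUnion, mem_range, mem_powersetCard,
        mem_powerset]
      refine ⟨⟨(s ∩ P).card, hs.2, inter_subset_right, rfl⟩, ?_⟩
      intro x hx
      rw [mem_compl]
      exact (mem_sdiff.mp hx).2
    · intro s _ s' _ h
      simp only [Prod.mk.injEq] at h
      calc s = s \ P ∪ s ∩ P := (sdiff_union_inter s P).symm
        _ = s' \ P ∪ s' ∩ P := by rw [h.1, h.2]
        _ = s' := sdiff_union_inter s' P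
  refine h1.trans ?_
  simp only [T]
  rw [card_product, card_powerset, card_compl, Fintype.card_fin]
  apply Nat.mul_le_mul_right
  refine card_biUnion_le.trans (sum_le_sum fun i _ => ?_)
  rw [card_powersetCard]

/-- The main step: a set `P` of points and a dense family `Q` of subsets. -/
lemma core (L k : ℕ) (hN : N = 2 * L) (hk1 : 1 ≤ k)
    (hbig : (∑ i ∈ range k, L.choose i) * 2 ^ ((k + 1) * k) < 2 ^ L)
    (P : Finset (Fin N)) (hP : P.card = L) (Q : Finset (Finset (Fin N)))
    (hQ : 2 ^ (N - 1) ≤ Q.card) (g : Fin N → ℕ) (hg : Function.Injective g)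
    (f : Finset (Fin N) → ℕ) (hf : Function.Injective f) (R : Fin k → Fin k → Prop) :
    ∃ (a : Fin k → Fin N) (b : Fin k → Finset (Fin N)), (∀ i, a i ∈ P) ∧ (∀ j, b j ∈ Q) ∧
      (∀ i j, i < j → g (a i) < g (a j)) ∧ (∀ i j, i < j → f (b i) < f (b j)) ∧
      ∀ i j, a i ∈ b j ↔ R i j := by
  classical
  have hkL : (k + 1) * k < L := by
    have h1 : 1 ≤ ∑ i ∈ range k, L.choose i := by
      have h2 : L.choose 0 ≤ ∑ i ∈ range k, L.choose i :=
        single_le_sum (f := fun i => L.choose i) (fun _ _ => Nat.zero_le _)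
          (mem_range.mpr (by omega))
      simpa using h2
    have h2 : 2 ^ ((k + 1) * k) < 2 ^ L := lt_of_le_of_lt (Nat.le_mul_of_pos_left _ h1) hbig
    exact (Nat.pow_lt_pow_iff_right (by norm_num)).mp h2
  set c := 2 ^ (N - (k + 1)) with hc
  have hcommon := card_common Q f hf k (by omega) hk1 hQ k le_rfl
  rw [← hc] at hcommon
  -- some common shattered set meets `P` in at least `k` elements
  obtain ⟨s, hs1, hs2⟩ : ∃ s ∈ common Q f c k, k ≤ (s ∩ P).card := by
    by_contra hcon
    push Not at hcon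
    have h1 : common Q f c k ⊆ univ.filter (fun s : Finset (Fin N) => (s ∩ P).card < k) :=
      fun s hs => mem_filter.mpr ⟨mem_univ _, hcon s hs⟩
    have h2 := (hcommon.trans (card_le_card h1)).trans (card_small P k)
    rw [hP, hN] at h2
    have h3 : 2 * L - L = L := by omega
    rw [h3] at h2
    have h4 : 2 ^ (2 * L - (k + 1) * k) * 2 ^ ((k + 1) * k) = 2 ^ L * 2 ^ L := by
      rw [← pow_add, ← pow_add]
      congr 1
      omega
    have h5 : 2 ^ L * 2 ^ L ≤
        ((∑ i ∈ range k, L.choose i) * 2 ^ ((k + 1) * k)) * 2 ^ L := by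
      rw [← h4]
      calc 2 ^ (2 * L - (k + 1) * k) * 2 ^ ((k + 1) * k)
          ≤ ((∑ i ∈ range k, L.choose i) * 2 ^ L) * 2 ^ ((k + 1) * k) :=
            Nat.mul_le_mul_right _ h2
        _ = _ := by ring
    have h6 := Nat.le_of_mul_le_mul_right h5 (by positivity)
    omega
  obtain ⟨A, hA1, hA2⟩ := exists_subset_card_eq hs2
  -- sort `A` by `g`
  have hA3 : (A.image g).card = k := by rw [card_image_of_injective _ hg, hA2]
  let o := (A.image g).orderEmbOfFin hA3
  have ho : ∀ i, ∃ x ∈ A, g x = o i := by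
    intro i
    exact mem_image.mp (orderEmbOfFin_mem _ hA3 i)
  choose a ha1 ha2 using ho
  have hamono : ∀ i j, i < j → g (a i) < g (a j) := by
    intro i j hij
    rw [ha2, ha2]
    exact o.strictMono hij
  have hainj : Function.Injective a := by
    intro i j h
    by_contra hne
    rcases lt_or_gt_of_ne hne with h1 | h1
    · exact absurd (congrArg g h) (hamono _ _ h1).ne
    · exact absurd (congrArg g h) (hamono _ _ h1).ne'
  -- the blocks shatter `A`
  have hshat : ∀ j : Fin k, (block Q f c j).Shatters A := by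
    intro j
    rw [common, mem_filter] at hs1
    have h1 := mem_shatterer.mp (hs1.2 j j.2)
    exact h1.mono_right (hA1.trans inter_subset_left)
  have hb : ∀ j : Fin k, ∃ u ∈ block Q f c j, A ∩ u = (univ.filter (fun i => R i j)).image a := by
    intro j
    apply hshat j
    intro x hx
    obtain ⟨i, -, rfl⟩ := mem_image.mp hx
    exact ha1 i
  choose b hb1 hb2 using hb
  refine ⟨a, b, ?_, ?_, hamono, ?_, ?_⟩
  · intro i
    exact (mem_inter.mp (hA1 (ha1 i))).2
  · intro j
    exact (mem_filter.mp (hb1 j)).1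
  · intro i j hij
    have h1 := (mem_filter.mp (hb1 i)).2.2
    have h2 := (mem_filter.mp (hb1 j)).2.1
    by_contra hcon
    rw [not_lt] at hcon
    have h3 := rk_mono Q f hcon
    have h4 : ((i : ℕ) + 1) * c ≤ (j : ℕ) * c := Nat.mul_le_mul_right _ hij
    omega
  · intro i j
    constructor
    · intro h
      have h1 : a i ∈ A ∩ b j := mem_inter.mpr ⟨ha1 i, h⟩
      rw [hb2] at h1
      obtain ⟨i', hi', h2⟩ := mem_image.mp h1
      rw [← hainj h2]
      exact (mem_filter.mp hi').2
    · intro h
      have h1 : a i ∈ A ∩ b j := by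
        rw [hb2]
        exact mem_image_of_mem a (mem_filter.mpr ⟨mem_univ _, h⟩)
      exact (mem_inter.mp h1).2

end Core

/-- The incidence graph of the points `Fin N` and all subsets of `Fin N`. -/
def Inc (N : ℕ) : SimpleGraph (Fin N ⊕ Finset (Fin N)) where
  Adj
    | Sum.inl i, Sum.inr S => i ∈ S
    | Sum.inr S, Sum.inl i => i ∈ S
    | _, _ => False
  symm := ⟨by
    rintro (i | S) (j | T) h
    · exact h
    · exact h
    · exact h
    · exact h⟩
  loopless := ⟨by
    rintro (i | S) h
    · exact h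
    · exact h⟩

lemma inc_bipartite (N : ℕ) : (Inc N).Colorable 2 := by
  refine ⟨SimpleGraph.Coloring.mk (fun v => if v.isLeft then (0 : Fin 2) else 1) ?_⟩
  rintro (i | S) (j | T) h
  · exact h.elim
  · simp
  · simp
  · exact h.elim

/-- The vertices are `0, ..., n - 1`, those at distance `k` or `k + 1` are adjacent. -/
def Star (n k : ℕ) : SimpleGraph (Fin n) where
  Adj i j := i ≠ j ∧ ((i : ℕ) + k = j ∨ (i : ℕ) + k + 1 = j ∨ (j : ℕ) + k = i ∨
    (j : ℕ) + k + 1 = i)
  symm := ⟨fun _ _ h => ⟨h.1.symm, by tauto⟩⟩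
  loopless := ⟨fun _ h => h.1 rfl⟩

lemma star_not_bipartite (k : ℕ) (hk : 1 ≤ k) : ¬ (Star (2 * k + 1) k).Colorable 2 := by
  rintro ⟨C⟩
  have hfin : ∀ x y z : Fin 2, x ≠ z → y ≠ z → x = y := by decide
  have hstep : ∀ (i : ℕ) (h1 : i < 2 * k + 1) (h2 : i + 1 < 2 * k + 1),
      C ⟨i, h1⟩ = C ⟨i + 1, h2⟩ := by
    intro i h1 h2
    by_cases h3 : i < k
    · refine hfin _ _ (C ⟨i + k + 1, by omega⟩) (C.valid ?_) (C.valid ?_)
      · refine ⟨?_, Or.inr (Or.inl rfl)⟩
        rw [ne_eq, Fin.mk.injEq]; omega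
      · refine ⟨?_, Or.inl ?_⟩
        · rw [ne_eq, Fin.mk.injEq]; omega
        · simp only; omega
    · refine hfin _ _ (C ⟨i - k, by omega⟩) (C.valid ?_) (C.valid ?_)
      · refine ⟨?_, Or.inr (Or.inr (Or.inl ?_))⟩
        · rw [ne_eq, Fin.mk.injEq]; omega
        · simp only; omega
      · refine ⟨?_, Or.inr (Or.inr (Or.inr ?_))⟩
        · rw [ne_eq, Fin.mk.injEq]; omega
        · simp only; omega
  have hconst : ∀ (i : ℕ) (h1 : i < 2 * k + 1), C ⟨i, h1⟩ = C ⟨0, by omega⟩ := by
    intro i
    induction i with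
    | zero => intro _; rfl
    | succ i ih =>
      intro h1
      rw [← hstep i (by omega) h1]
      exact ih (by omega)
  have h0 : (Star (2 * k + 1) k).Adj ⟨0, by omega⟩ ⟨k, by omega⟩ := by
    refine ⟨?_, Or.inl ?_⟩
    · rw [ne_eq, Fin.mk.injEq]; omega
    · simp only; omega
  exact C.valid h0 (hconst k (by omega)).symm

lemma exists_threshold {N : ℕ} (h : Fin N → ℕ) (hh : Function.Injective h) (L : ℕ) (hL : L ≤ N) :
    ∃ θ, (univ.filter (fun i => h i < θ)).card = L := by
  classical
  have hex : ∃ θ, L ≤ (univ.filter (fun i => h i < θ)).card := by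
    refine ⟨(∑ i, h i) + 1, ?_⟩
    rw [filter_true_of_mem, card_univ, Fintype.card_fin]
    · exact hL
    · intro i _
      have := single_le_sum (f := h) (fun _ _ => Nat.zero_le _) (mem_univ i)
      omega
  obtain ⟨θ, h1, h2⟩ : ∃ θ, L ≤ (univ.filter (fun i => h i < θ)).card ∧
      ∀ θ' < θ, (univ.filter (fun i => h i < θ')).card < L :=
    ⟨Nat.find hex, Nat.find_spec hex, fun θ' hθ' => not_le.mp (Nat.find_min hex hθ')⟩
  refine ⟨θ, le_antisymm ?_ h1⟩
  rcases θ with _ | θ
  · simp
  · have h3 := h2 θ (Nat.lt_succ_self θ)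
    have h4 : univ.filter (fun i => h i < θ + 1) ⊆
        univ.filter (fun i => h i < θ) ∪ univ.filter (fun i => h i = θ) := by
      intro i hi
      simp only [mem_filter, mem_univ, true_and, mem_union] at hi ⊢
      omega
    have h5 : (univ.filter (fun i => h i = θ)).card ≤ 1 := by
      rw [card_le_one]
      intro i hi j hj
      simp only [mem_filter, mem_univ, true_and] at hi hj
      exact hh (hi.trans hj.symm)
    have h6 := (card_le_card h4).trans (card_union_le _ _)
    omega

/-- In every circular ordering of a large incidence graph there is a copy of the star polygon with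
one vertex deleted. -/
lemma unavoidable (k : ℕ) (hk : 1 ≤ k) : ∃ N, ∀ pos : Fin N ⊕ Finset (Fin N) → ℕ,
    Function.Injective pos → ∃ η : Fin (2 * k) → Fin N ⊕ Finset (Fin N), Function.Injective η ∧
      (∀ x y z : Fin (2 * k), Cyc x y z → Cyc (pos (η x)) (pos (η y)) (pos (η z))) ∧
      ∀ x y, (Star (2 * k) k).Adj x y ↔ (Inc N).Adj (η x) (η y) := by
  classical
  obtain ⟨L, hbig⟩ := exists_L k
  refine ⟨2 * L, fun pos hpos => ?_⟩
  set g : Fin (2 * L) → ℕ := fun i => pos (Sum.inl i) with hg
  set f : Finset (Fin (2 * L)) → ℕ := fun S => pos (Sum.inr S) with hf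
  have hginj : Function.Injective g := fun i j h => Sum.inl_injective (hpos h)
  have hfinj : Function.Injective f := fun i j h => Sum.inr_injective (hpos h)
  obtain ⟨θ, hθ⟩ := exists_threshold g hginj L (by omega)
  let R : Fin k → Fin k → Prop := fun i j => (i : ℕ) = j ∨ (i : ℕ) + 1 = j
  have hL0 : 0 < L := by
    by_contra h
    have : L = 0 := by omega
    rw [this, pow_zero] at hbig
    have h1 : 1 ≤ ∑ i ∈ range k, Nat.choose 0 i := by
      have h2 : Nat.choose 0 0 ≤ ∑ i ∈ range k, Nat.choose 0 i :=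
        single_le_sum (f := fun i => Nat.choose 0 i) (fun _ _ => Nat.zero_le _)
          (mem_range.mpr (by omega))
      simpa using h2
    have h2 := Nat.one_le_two_pow (n := (k + 1) * k)
    nlinarith
  -- the general construction
  have main : ∀ (a : Fin k → Fin (2 * L)) (b : Fin k → Finset (Fin (2 * L))),
      (∀ i j, i < j → g (a i) < g (a j)) → (∀ i j, i < j → f (b i) < f (b j)) →
      (∀ i j, a i ∈ b j ↔ R i j) →
      ((∀ i j, g (a i) < f (b j)) ∨ (∀ i j, f (b j) < g (a i))) →
      ∃ η : Fin (2 * k) → Fin (2 * L) ⊕ Finset (Fin (2 * L)), Function.Injective η ∧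
      (∀ x y z : Fin (2 * k), Cyc x y z → Cyc (pos (η x)) (pos (η y)) (pos (η z))) ∧
      ∀ x y, (Star (2 * k) k).Adj x y ↔ (Inc (2 * L)).Adj (η x) (η y) := by
    intro a b ha hb hab hsep
    let η : Fin (2 * k) → Fin (2 * L) ⊕ Finset (Fin (2 * L)) := fun x =>
      if h : (x : ℕ) < k then Sum.inl (a ⟨x, h⟩) else Sum.inr (b ⟨x - k, by omega⟩)
    have hη1 : ∀ (x : Fin (2 * k)) (h : (x : ℕ) < k), η x = Sum.inl (a ⟨x, h⟩) := by
      intro x h
      simp only [η, dif_pos h]
    have hη2 : ∀ (x : Fin (2 * k)) (h : ¬ (x : ℕ) < k),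
        η x = Sum.inr (b ⟨x - k, by omega⟩) := by
      intro x h
      simp only [η, dif_neg h]
    -- positions
    have hp1 : ∀ x y : Fin (2 * k), (x : ℕ) < y → (y : ℕ) < k → pos (η x) < pos (η y) := by
      intro x y hxy hy
      rw [hη1 x (by omega), hη1 y hy]
      exact ha _ _ (by rw [Fin.mk_lt_mk]; exact hxy)
    have hp2 : ∀ x y : Fin (2 * k), (x : ℕ) < y → ¬ (x : ℕ) < k → pos (η x) < pos (η y) := by
      intro x y hxy hx
      rw [hη2 x hx, hη2 y (by omega)]
      exact hb _ _ (by rw [Fin.mk_lt_mk]; omega)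
    have hp3 : (∀ x y : Fin (2 * k), (x : ℕ) < k → ¬ (y : ℕ) < k → pos (η x) < pos (η y)) ∨
        (∀ x y : Fin (2 * k), (x : ℕ) < k → ¬ (y : ℕ) < k → pos (η y) < pos (η x)) := by
      rcases hsep with h | h
      · left
        intro x y hx hy
        rw [hη1 x hx, hη2 y hy]
        exact h _ _
      · right
        intro x y hx hy
        rw [hη1 x hx, hη2 y hy]
        exact h _ _
    have hcyc : ∀ x y z : Fin (2 * k), (x : ℕ) < y → (y : ℕ) < z →
        Cyc (pos (η x)) (pos (η y)) (pos (η z)) := by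
      intro x y z hxy hyz
      by_cases hx : (x : ℕ) < k <;> by_cases hy : (y : ℕ) < k <;> by_cases hz : (z : ℕ) < k
      · exact Or.inl ⟨hp1 x y hxy hy, hp1 y z hyz hz⟩
      · rcases hp3 with h | h
        · exact Or.inl ⟨hp1 x y hxy hy, h y z hy hz⟩
        · exact Or.inr (Or.inr ⟨h x z hx hz, hp1 x y hxy hy⟩)
      · omega
      · rcases hp3 with h | h
        · exact Or.inl ⟨h x y hx hy, hp2 y z hyz hy⟩
        · exact Or.inr (Or.inl ⟨hp2 y z hyz hy, h x z hx hz⟩)
      · omega
      · omega
      · omega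
      · exact Or.inl ⟨hp2 x y hxy hx, hp2 y z hyz hy⟩
    refine ⟨η, ?_, ?_, ?_⟩
    · intro x y hxy
      by_contra hne
      have hne' : (x : ℕ) ≠ y := fun h => hne (Fin.ext h)
      have h1 : ∀ x y : Fin (2 * k), (x : ℕ) < y → η x ≠ η y := by
        intro x y hlt h
        by_cases hx : (x : ℕ) < k <;> by_cases hy : (y : ℕ) < k
        · exact absurd (congrArg pos h) (hp1 x y hlt hy).ne
        · rw [hη1 x hx, hη2 y hy] at h
          exact Sum.inl_ne_inr h
        · omega
        · exact absurd (congrArg pos h) (hp2 x y hlt hx).ne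
      rcases lt_or_gt_of_ne hne' with h | h
      · exact h1 x y h hxy
      · exact h1 y x h hxy.symm
    · rintro x y z (⟨h1, h2⟩ | ⟨h1, h2⟩ | ⟨h1, h2⟩)
      · exact hcyc x y z h1 h2
      · have := hcyc y z x h1 h2
        unfold Cyc at this ⊢
        tauto
      · have := hcyc z x y h1 h2
        unfold Cyc at this ⊢
        tauto
    · intro x y
      by_cases hx : (x : ℕ) < k <;> by_cases hy : (y : ℕ) < k
      · rw [hη1 x hx, hη1 y hy]
        constructor
        · rintro ⟨-, h⟩
          omega
        · intro h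
          exact h.elim
      · rw [hη1 x hx, hη2 y hy]
        show _ ↔ a ⟨x, hx⟩ ∈ b ⟨y - k, _⟩
        rw [hab]
        simp only [Star, R]
        constructor
        · rintro ⟨-, h⟩
          omega
        · intro h
          refine ⟨fun h' => hy (h' ▸ hx), ?_⟩
          omega
      · rw [hη2 x hx, hη1 y hy]
        show _ ↔ a ⟨y, hy⟩ ∈ b ⟨x - k, _⟩
        rw [hab]
        simp only [Star, R]
        constructor
        · rintro ⟨-, h⟩
          omega
        · intro h
          refine ⟨fun h' => hx (h' ▸ hy), ?_⟩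
          omega
      · rw [hη2 x hx, hη2 y hy]
        constructor
        · rintro ⟨-, h⟩
          omega
        · intro h
          exact h.elim
  -- the subsets before and after the threshold
  set Q1 : Finset (Finset (Fin (2 * L))) := univ.filter (fun S => f S < θ) with hQ1
  set Q2 : Finset (Finset (Fin (2 * L))) := univ.filter (fun S => ¬ f S < θ) with hQ2
  have hsum : Q1.card + Q2.card = 2 ^ (2 * L) := by
    rw [hQ1, hQ2, card_filter_add_card_filter_not, card_univ, Fintype.card_finset,
      Fintype.card_fin]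
  have hpow : 2 ^ (2 * L) = 2 * 2 ^ (2 * L - 1) := by
    rw [← pow_succ']
    congr 1
    omega
  by_cases hcase : 2 ^ (2 * L - 1) ≤ Q2.card
  · obtain ⟨a, b, h1, h2, h3, h4, h5⟩ := core L k rfl hk hbig (univ.filter (fun i => g i < θ)) hθ
      Q2 hcase g hginj f hfinj R
    refine main a b h3 h4 h5 (Or.inl fun i j => ?_)
    have h6 := (mem_filter.mp (h1 i)).2
    have h7 := (mem_filter.mp (h2 j)).2
    omega
  · have hcase' : 2 ^ (2 * L - 1) ≤ Q1.card := by omega
    have hcomp : (univ.filter (fun i => ¬ g i < θ)).card = L := by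
      have := card_filter_add_card_filter_not (s := (univ : Finset (Fin (2 * L))))
        (fun i => g i < θ)
      rw [hθ, card_univ, Fintype.card_fin] at this
      omega
    obtain ⟨a, b, h1, h2, h3, h4, h5⟩ := core L k rfl hk hbig
      (univ.filter (fun i => ¬ g i < θ)) hcomp Q1 hcase' g hginj f hfinj R
    refine main a b h3 h4 h5 (Or.inr fun i j => ?_)
    have h6 := (mem_filter.mp (h1 i)).2
    have h7 := (mem_filter.mp (h2 j)).2
    omega

/-- rotation of the star polygon, such that the vertex `p` becomes the last one -/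
def rot (k p q : ℕ) : ℕ := if p < q then q - p - 1 else q + 2 * k - p

lemma rot_lt (k p q : ℕ) (hp : p < 2 * k + 1) (hq : q < 2 * k + 1) (hne : q ≠ p) :
    rot k p q < 2 * k := by
  unfold rot
  split_ifs <;> omega

lemma rot_inj (k p q q' : ℕ) (hp : p < 2 * k + 1) (hq : q < 2 * k + 1) (hq' : q' < 2 * k + 1)
    (hne : q ≠ p) (hne' : q' ≠ p) (h : rot k p q = rot k p q') : q = q' := by
  unfold rot at h
  split_ifs at h <;> omega

lemma rot_cyc (k p x y z : ℕ) (hp : p < 2 * k + 1) (hx : x < 2 * k + 1) (hy : y < 2 * k + 1)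
    (hz : z < 2 * k + 1) (hxp : x ≠ p) (hyp : y ≠ p) (hzp : z ≠ p) (h : Cyc x y z) :
    Cyc (rot k p x) (rot k p y) (rot k p z) := by
  unfold Cyc rot at *
  split_ifs <;> omega

lemma rot_adj (k p q q' : ℕ) (hk : 1 ≤ k) (hp : p < 2 * k + 1) (hq : q < 2 * k + 1)
    (hq' : q' < 2 * k + 1) (hne : q ≠ p) (hne' : q' ≠ p) :
    (q ≠ q' ∧ (q + k = q' ∨ q + k + 1 = q' ∨ q' + k = q ∨ q' + k + 1 = q)) ↔
    (rot k p q ≠ rot k p q' ∧ (rot k p q + k = rot k p q' ∨ rot k p q + k + 1 = rot k p q' ∨
      rot k p q' + k = rot k p q ∨ rot k p q' + k + 1 = rot k p q)) := by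
  unfold rot
  split_ifs <;> omega

lemma not_circular : ¬ CircularlyDescribed Bipartite := by
  classical
  rintro ⟨F, hF, hdesc⟩
  obtain ⟨M, hM⟩ : ∃ M, ∀ X ∈ F, X.1 ≤ M := by
    obtain ⟨M, hM⟩ := (hF.image (fun X : Pattern => X.1)).bddAbove
    exact ⟨M, fun X hX => hM (Set.mem_image_of_mem _ hX)⟩
  set k := M + 1 with hk
  have h1 : ¬ CircFree F (Star (2 * k + 1) k) := by
    rw [← hdesc]
    exact star_not_bipartite k (by omega)
  have h2 : ∃ X ∈ F, CircContains (Star (2 * k + 1) k) (fun v => (v : ℕ)) X := by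
    by_contra hcon
    push Not at hcon
    exact h1 ⟨fun v => v, Fin.val_injective, hcon⟩
  obtain ⟨X, hX, φ, hφ1, hφ2, hφ3⟩ := h2
  -- a vertex which is not used
  obtain ⟨p, hp⟩ : ∃ p : Fin (2 * k + 1), ∀ i, φ i ≠ p := by
    by_contra hcon
    push Not at hcon
    have h3 := Fintype.card_le_of_surjective φ hcon
    rw [Fintype.card_fin, Fintype.card_fin] at h3
    have := hM X hX
    omega
  have hne : ∀ i, (φ i : ℕ) ≠ p := fun i h => hp i (Fin.ext h)
  obtain ⟨N, hN⟩ := unavoidable k (by omega)
  obtain ⟨pos, hpos, hfree⟩ := (hdesc _ (Inc N)).mp (inc_bipartite N)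
  obtain ⟨η, hη1, hη2, hη3⟩ := hN pos hpos
  apply hfree X hX
  refine ⟨fun i => η ⟨rot k p (φ i), rot_lt k p _ p.2 (φ i).2 (hne i)⟩, ?_, ?_, ?_⟩
  · intro i j hij
    have h3 := hη1 hij
    rw [Fin.mk.injEq] at h3
    exact hφ1 (Fin.ext (rot_inj k p _ _ p.2 (φ i).2 (φ j).2 (hne i) (hne j) h3))
  · intro i j l hij hjl
    apply hη2
    exact rot_cyc k p _ _ _ p.2 (φ i).2 (φ j).2 (φ l).2 (hne i) (hne j) (hne l)
      (hφ2 i j l hij hjl)
  · intro i j
    rw [hφ3, ← hη3]
    have h3 := rot_adj k p (φ i) (φ j) (by omega) p.2 (φ i).2 (φ j).2 (hne i) (hne j)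
    simp only [Star, ne_eq, Fin.mk.injEq, ← Fin.val_inj] at h3 ⊢
    exact h3

/-- The class of bipartite graphs is a hereditary property which is described by finitely many
forbidden linearly ordered graphs, but not by any finite set of forbidden circularly ordered
graphs. -/
theorem result : Hereditary Bipartite ∧ LinearlyDescribed Bipartite ∧
    ¬ CircularlyDescribed Bipartite :=
  ⟨bipartite_hereditary, bipartite_linear, not_circular⟩

end Pool.Agent.Results.MP_b6cdd3_co.BipartiteSeparates
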